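import Pool.Agent.Helper63.P705.NR.Goals

/-! Proof of `GV` (packet NR-GV for helper63): bounds by the total variation. -/

set_option autoImplicit false

namespace Pool.Agent.Helper32.NR

open MeasureTheory Set Filter Topology
open Pool.Agent.Helper53.PT
open Pool.Agent.Helper63.P705.NR

/-- integration by parts against a sine -/
lemma parts (k k' : ℝ → ℝ) (u : ℝ) (hu : 0 < u) (hd : ∀ y, 0 < y → HasDerivAt k (k' y) y)
    (hk : IntegrableOn k (Ioi 0)) (hk' : IntegrableOn k' (Ioi 0))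
    (h0 : Tendsto k (𝓝[>] 0) (𝓝 0)) :
    u * ∫ y in Ioi (0 : ℝ), k y * Real.sin (u * y) =
      ∫ y in Ioi (0 : ℝ), k' y * Real.cos (u * y) := by
  have hinf : Tendsto k atTop (𝓝 0) :=
    tendsto_zero_of_hasDerivAt_of_integrableOn_Ioi (fun x hx => hd x hx) hk' hk
  have hcb : ∀ y : ℝ, |-(Real.cos (u * y)) / u| ≤ 1 / u := by
    intro y
    rw [abs_div, abs_neg, abs_of_pos hu]
    exact div_le_div_of_nonneg_right (Real.abs_cos_le_one _) hu.le
  have hsm : AEStronglyMeasurable (fun y : ℝ => Real.sin (u * y)) (volume.restrict (Ioi 0)) :=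
    (by fun_prop : Continuous (fun y : ℝ => Real.sin (u * y))).aestronglyMeasurable
  have hcm : AEStronglyMeasurable (fun y : ℝ => -(Real.cos (u * y)) / u)
      (volume.restrict (Ioi 0)) :=
    (by fun_prop : Continuous (fun y : ℝ => -(Real.cos (u * y)) / u)).aestronglyMeasurable
  have hv : ∀ x ∈ Ioi (0 : ℝ), HasDerivAt (fun y : ℝ => -(Real.cos (u * y)) / u)
      (Real.sin (u * x)) x := by
    intro x _
    have h1 : HasDerivAt (fun y : ℝ => u * y) (u * 1) x := (hasDerivAt_id x).const_mul u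
    have h2 : HasDerivAt (fun y : ℝ => -(Real.cos (u * y)) / u)
        (-(-Real.sin (u * x) * (u * 1)) / u) x := ((h1.cos).neg).div_const u
    exact h2.congr_deriv (by field_simp)
  have i1 : IntegrableOn (k * fun y : ℝ => Real.sin (u * y)) (Ioi 0) := by
    refine Integrable.mul_bdd (c := 1) hk hsm ?_
    exact Eventually.of_forall (fun y => by rw [Real.norm_eq_abs]; exact Real.abs_sin_le_one _)
  have i2 : IntegrableOn (k' * fun y : ℝ => -(Real.cos (u * y)) / u) (Ioi 0) := by
    refine Integrable.mul_bdd (c := 1 / u) hk' hcm ?_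
    exact Eventually.of_forall (fun y => by rw [Real.norm_eq_abs]; exact hcb y)
  have z1 : Tendsto (k * fun y : ℝ => -(Real.cos (u * y)) / u) (𝓝[>] 0) (𝓝 0) := by
    have h1 := bdd_le_mul_tendsto_zero' (f := fun y : ℝ => -(Real.cos (u * y)) / u) (1 / u)
      (Eventually.of_forall (fun y => hcb y)) h0
    exact h1.congr (fun y => mul_comm _ _)
  have z2 : Tendsto (k * fun y : ℝ => -(Real.cos (u * y)) / u) atTop (𝓝 0) := by
    have h1 := bdd_le_mul_tendsto_zero' (f := fun y : ℝ => -(Real.cos (u * y)) / u) (1 / u)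
      (Eventually.of_forall (fun y => hcb y)) hinf
    exact h1.congr (fun y => mul_comm _ _)
  have := integral_Ioi_mul_deriv_eq_deriv_mul (fun x hx => hd x hx) hv i1 i2 z1 z2
  rw [this]
  simp only [sub_zero, zero_sub]
  rw [mul_neg, ← integral_const_mul, ← integral_neg]
  refine integral_congr_ae (Eventually.of_forall (fun y => ?_))
  beta_reduce
  field_simp

lemma parts_bound (k k' : ℝ → ℝ) (u : ℝ) (hu : 0 < u) (hd : ∀ y, 0 < y → HasDerivAt k (k' y) y)
    (hk : IntegrableOn k (Ioi 0)) (hk' : IntegrableOn k' (Ioi 0))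
    (h0 : Tendsto k (𝓝[>] 0) (𝓝 0)) :
    |u * ∫ y in Ioi (0 : ℝ), k y * Real.sin (u * y)| ≤ ∫ y in Ioi (0 : ℝ), |k' y| := by
  rw [parts k k' u hu hd hk hk' h0]
  refine (abs_integral_le_integral_abs).trans ?_
  refine integral_mono_of_nonneg (Eventually.of_forall (fun y => abs_nonneg _)) hk'.abs ?_
  refine Eventually.of_forall (fun y => ?_)
  beta_reduce
  rw [abs_mul]
  exact mul_le_of_le_one_right (abs_nonneg _) (Real.abs_cos_le_one _)

lemma integral_deriv_zero (k k' : ℝ → ℝ) (hd : ∀ y, 0 < y → HasDerivAt k (k' y) y)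
    (hk : IntegrableOn k (Ioi 0)) (hk' : IntegrableOn k' (Ioi 0))
    (hz : k 0 = 0) (h0 : Tendsto k (𝓝[>] 0) (𝓝 0)) :
    ∫ y in Ioi (0 : ℝ), k' y = 0 := by
  have hinf : Tendsto k atTop (𝓝 0) :=
    tendsto_zero_of_hasDerivAt_of_integrableOn_Ioi (fun x hx => hd x hx) hk' hk
  have hc : ContinuousWithinAt k (Ici 0) 0 := by
    rw [← continuousWithinAt_Ioi_iff_Ici, ContinuousWithinAt, hz]
    exact h0
  have := integral_Ioi_of_hasDerivAt_of_tendsto hc (fun x hx => hd x hx) hk' hinf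
  rw [this, hz]; ring

section
variable {θ : ℝ}

lemma ff_eq {y : ℝ} : ff θ y = kap θ * y ^ (1 / θ - 2) * zf θ y := rfl

lemma int_shift (hI : ∀ a : ℝ, -1 < a → IntegrableOn (fun y => y ^ a * zf θ y) (Ioi 0))
    (a : ℝ) (ha : -1 < a) (F : ℝ → ℝ) (c : ℝ)
    (h : ∀ y, 0 < y → F y = c * (y ^ a * zf θ y)) : IntegrableOn F (Ioi 0) := by
  have h1 : IntegrableOn (fun y => c * (y ^ a * zf θ y)) (Ioi 0) := (hI a ha).const_mul c
  refine h1.congr_fun (fun y hy => (h y hy).symm) measurableSet_Ioi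

lemma tend_zero (C : ℝ) (k : ℝ → ℝ) (hk : ∀ y, 0 < y → y < 1 → |k y| ≤ C * y) :
    Tendsto k (𝓝[>] 0) (𝓝 0) := by
  have h1 : Tendsto (fun y : ℝ => C * y) (𝓝[>] 0) (𝓝 0) := by
    have : Tendsto (fun y : ℝ => C * y) (𝓝 0) (𝓝 (C * 0)) :=
      (continuous_const.mul continuous_id).tendsto 0
    rw [mul_zero] at this
    exact this.mono_left nhdsWithin_le_nhds
  refine squeeze_zero_norm' ?_ h1
  filter_upwards [Ioo_mem_nhdsGT (show (0 : ℝ) < 1 by norm_num)] with y hy
  rw [Real.norm_eq_abs]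
  exact hk y hy.1 hy.2

/-- `-log` cut off at `1`, integral `1` -/
lemma int_l1 : IntegrableOn ((Ioc (0 : ℝ) 1).indicator (fun y => -Real.log y)) (Ioi 0) ∧
    ∫ y in Ioi (0 : ℝ), (Ioc (0 : ℝ) 1).indicator (fun y => -Real.log y) y = 1 := by
  have h1 : IntervalIntegrable (fun y : ℝ => -Real.log y) volume 0 1 :=
    (intervalIntegral.intervalIntegrable_log').neg
  have h2 : IntegrableOn (fun y : ℝ => -Real.log y) (Ioc 0 1) := by
    rwa [intervalIntegrable_iff_integrableOn_Ioc_of_le (by norm_num)] at h1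
  have hsub : Ioc (0 : ℝ) 1 ⊆ Ioi 0 := fun y hy => hy.1
  constructor
  · exact ((integrable_indicator_iff measurableSet_Ioc).mpr h2).integrableOn
  · rw [setIntegral_indicator measurableSet_Ioc, inter_eq_self_of_subset_right hsub,
      ← intervalIntegral.integral_of_le (by norm_num), intervalIntegral.integral_neg, integral_log]
    simp

lemma int_l2 : IntegrableOn ((Ioc (0 : ℝ) 1).indicator (fun y => y - y ^ 2)) (Ioi 0) ∧
    ∫ y in Ioi (0 : ℝ), (Ioc (0 : ℝ) 1).indicator (fun y => y - y ^ 2) y = 1 / 6 := by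
  have h1 : IntervalIntegrable (fun y : ℝ => y - y ^ 2) volume 0 1 :=
    (by fun_prop : Continuous (fun y : ℝ => y - y ^ 2)).intervalIntegrable _ _
  have h2 : IntegrableOn (fun y : ℝ => y - y ^ 2) (Ioc 0 1) := by
    rwa [intervalIntegrable_iff_integrableOn_Ioc_of_le (by norm_num)] at h1
  have hsub : Ioc (0 : ℝ) 1 ⊆ Ioi 0 := fun y hy => hy.1
  constructor
  · exact ((integrable_indicator_iff measurableSet_Ioc).mpr h2).integrableOn
  · rw [setIntegral_indicator measurableSet_Ioc, inter_eq_self_of_subset_right hsub,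
      ← intervalIntegral.integral_of_le (by norm_num), intervalIntegral.integral_sub
      (by simp) (by simp), integral_id, integral_pow]
    norm_num

lemma v_up {θ : ℝ} (hp0 : 0 ≤ 1 / θ - 2) (hp1 : 1 / θ - 2 ≤ 1)
    (hk : kap θ ≤ Real.exp (0.806 * (1 / θ - 2))) {y : ℝ} (hy : 0 < y) :
    vf θ y - 1 ≤ (1 / θ - 2) * (Real.exp 0.806 * y) := by
  set p := 1 / θ - 2 with hp
  have h1 : vf θ y ≤ (Real.exp 0.806 * y) ^ p := by
    rw [Real.mul_rpow (Real.exp_pos _).le hy.le, ← Real.exp_mul]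
    exact mul_le_mul_of_nonneg_right hk (Real.rpow_nonneg hy.le _)
  have h2 : (Real.exp 0.806 * y) ^ p ≤ 1 + p * (Real.exp 0.806 * y - 1) := by
    have := _root_.rpow_one_add_le_one_add_mul_self (s := Real.exp 0.806 * y - 1)
      (by have := mul_pos (Real.exp_pos 0.806) hy; linarith) hp0 hp1
    rwa [add_sub_cancel] at this
  nlinarith

lemma v_lo {θ : ℝ} (hp0 : 0 ≤ 1 / θ - 2) (hk : 1 ≤ kap θ) {y : ℝ} (hy : 0 < y) :
    (1 / θ - 2) * Real.log y ≤ vf θ y - 1 := by
  set p := 1 / θ - 2 with hp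
  have h1 : y ^ p ≤ vf θ y := by
    have h0 : 0 ≤ y ^ p := Real.rpow_nonneg hy.le _
    calc y ^ p = 1 * y ^ p := (one_mul _).symm
      _ ≤ kap θ * y ^ p := mul_le_mul_of_nonneg_right hk h0
  have h2 : 1 + p * Real.log y ≤ y ^ p := by
    rw [Real.rpow_def_of_pos hy]
    have := Real.add_one_le_exp (Real.log y * p)
    linarith [mul_comm p (Real.log y)]
  linarith

lemma v_abs {θ : ℝ} (hp0 : 0 ≤ 1 / θ - 2) (hp1 : 1 / θ - 2 ≤ 1) (hk1 : 1 ≤ kap θ)
    (hk : kap θ ≤ Real.exp (0.806 * (1 / θ - 2))) {y : ℝ} (hy : 0 < y) :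
    |vf θ y - 1| ≤ (1 / θ - 2) *
      (Real.exp 0.806 * y + (Ioc (0 : ℝ) 1).indicator (fun y => -Real.log y) y) := by
  have h1 := v_up hp0 hp1 hk hy
  have h2 := v_lo hp0 hk1 hy
  have hey : 0 ≤ (1 / θ - 2) * (Real.exp 0.806 * y) :=
    mul_nonneg hp0 (mul_pos (Real.exp_pos _) hy).le
  by_cases hy1 : y ≤ 1
  · have hmem : y ∈ Ioc (0 : ℝ) 1 := ⟨hy, hy1⟩
    rw [indicator_of_mem hmem]
    have hl : Real.log y ≤ 0 := Real.log_nonpos hy.le hy1
    have : (1 / θ - 2) * Real.log y ≤ 0 := mul_nonpos_of_nonneg_of_nonpos hp0 hl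
    rw [abs_le]
    constructor <;> nlinarith
  · have hmem : y ∉ Ioc (0 : ℝ) 1 := fun h => hy1 h.2
    rw [indicator_of_notMem hmem, add_zero]
    have hl : 0 ≤ Real.log y := Real.log_nonneg (le_of_not_ge hy1)
    have : 0 ≤ (1 / θ - 2) * Real.log y := mul_nonneg hp0 hl
    rw [abs_le]
    constructor <;> linarith

theorem gV : GV := by
  intro hD hM hF hC θ h49 h12 u hu
  have hθ : 0 < θ := by linarith
  obtain ⟨hκ0, hsg, hzc, hz, hzd, hfd, hI, -⟩ := hD θ hθ h12
  obtain ⟨-, m1z, -, m0f, -, -, m3f, -⟩ := hM hD θ hθ h12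
  obtain ⟨-, -, F1, F2⟩ := hF hD hM θ hθ h12 u
  obtain ⟨-, hC1, hk1, hk2, -, hm3⟩ := hC hD hM θ h49 h12
  obtain ⟨p, hp⟩ : ∃ p, p = 1 / θ - 2 := ⟨_, rfl⟩
  have hp0 : 0 < p := by
    rw [hp]
    have : 2 < 1 / θ := by rw [lt_div_iff₀ hθ]; linarith
    linarith
  have hp1 : p ≤ 0.0409 := by
    rw [hp]
    have : 1 / θ ≤ 2.0409 := by rw [div_le_iff₀ hθ]; linarith
    linarith
  have hffy : ∀ y, ff θ y = kap θ * y ^ p * zf θ y := fun y => by rw [hp]; rfl
  have hvfy : ∀ y, vf θ y = kap θ * y ^ p := fun y => by rw [hp]; rfl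
  have hpw : ∀ (y : ℝ) (n : ℕ), 0 < y → y ^ n * y ^ p = y ^ ((n : ℝ) + p) := fun y n hy => by
    rw [Real.rpow_add hy, Real.rpow_natCast]
  -- integrability
  have iz : IntegrableOn (zf θ) (Ioi 0) :=
    int_shift hI 0 (by norm_num) _ 1 (fun y hy => by simp)
  have iyz : IntegrableOn (fun y => y * zf θ y) (Ioi 0) :=
    int_shift hI 1 (by norm_num) _ 1 (fun y hy => by simp)
  have iff0 : IntegrableOn (ff θ) (Ioi 0) :=
    int_shift hI p (by linarith) _ (kap θ) (fun y hy => by rw [hffy]; ring)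
  have iff1 : IntegrableOn (fun y => y * ff θ y) (Ioi 0) :=
    int_shift hI ((1 : ℕ) + p) (by push_cast; linarith) _ (kap θ) (fun y hy => by
      rw [hffy, ← hpw y 1 hy]; ring)
  have iff2 : IntegrableOn (fun y => y ^ 2 * ff θ y) (Ioi 0) :=
    int_shift hI ((2 : ℕ) + p) (by push_cast; linarith) _ (kap θ) (fun y hy => by
      rw [hffy, ← hpw y 2 hy]; ring)
  have iff3 : IntegrableOn (fun y => y ^ 3 * ff θ y) (Ioi 0) :=
    int_shift hI ((3 : ℕ) + p) (by push_cast; linarith) _ (kap θ) (fun y hy => by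
      rw [hffy, ← hpw y 3 hy]; ring)
  have iv2 : IntegrableOn (fun y => y ^ 2 * vf θ y * ff θ y) (Ioi 0) :=
    int_shift hI ((2 : ℕ) + p + p) (by push_cast; linarith) _ (kap θ ^ 2) (fun y hy => by
      rw [hffy, hvfy, Real.rpow_add hy, ← hpw y 2 hy]; ring)
  have hz0 : ∀ y, 0 < y → 0 < zf θ y := fun y hy => (hz y hy.le).1
  have hzC : ∀ y, 0 < y → zf θ y ≤ 1 / sg θ := fun y hy => (hz y hy.le).2
  have hf0 : ∀ y, 0 < y → 0 < ff θ y := fun y hy => by
    rw [hffy]; exact mul_pos (mul_pos hκ0 (Real.rpow_pos_of_pos hy _)) (hz0 y hy)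
  have hv0 : ∀ y, 0 < y → 0 < vf θ y := fun y hy => by
    rw [hvfy]; exact mul_pos hκ0 (Real.rpow_pos_of_pos hy _)
  have hC0 : 0 < 1 / sg θ := by positivity
  have hypw1 : ∀ y : ℝ, 0 < y → y < 1 → y ^ p ≤ 1 := fun y hy hy1 =>
    Real.rpow_le_one hy.le hy1.le hp0.le
  have hffb : ∀ y, 0 < y → y < 1 → ff θ y ≤ kap θ * (1 / sg θ) := fun y hy hy1 => by
    rw [hffy]
    have h1 := hypw1 y hy hy1
    have h2 := hzC y hy
    have h3 := hz0 y hy
    have h4 : 0 < y ^ p := Real.rpow_pos_of_pos hy _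
    calc kap θ * y ^ p * zf θ y ≤ kap θ * 1 * zf θ y := by gcongr
      _ ≤ kap θ * (1 / sg θ) := by rw [mul_one]; gcongr
  have hu2 : 0 < u ^ 2 := by positivity
  constructor
  · -- first bound
    have hd : ∀ y, 0 < y → HasDerivAt (fun y => y * ff θ y)
        ((1 + p) * ff θ y - y ^ 2 * vf θ y * ff θ y) y := by
      intro y hy
      have h1 := (hasDerivAt_id y).mul (hfd y hy)
      refine h1.congr_deriv ?_
      simp only [id]
      rw [← hp]
      field_simp
      ring
    have ik' : IntegrableOn (fun y => (1 + p) * ff θ y - y ^ 2 * vf θ y * ff θ y) (Ioi 0) :=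
      (iff0.const_mul (1 + p)).sub iv2
    have h0 : Tendsto (fun y => y * ff θ y) (𝓝[>] 0) (𝓝 0) := by
      refine tend_zero (kap θ * (1 / sg θ)) _ (fun y hy hy1 => ?_)
      rw [abs_of_pos (mul_pos hy (hf0 y hy)), mul_comm]
      exact mul_le_mul_of_nonneg_right (hffb y hy hy1) hy.le
    have hb := parts_bound _ _ u hu hd iff1 ik' h0
    have hzero := integral_deriv_zero _ _ hd iff1 ik' (by simp) h0
    rw [integral_sub (iff0.const_mul (1 + p)) iv2, integral_const_mul, m0f] at hzero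
    have hle : ∫ y in Ioi (0 : ℝ), |(1 + p) * ff θ y - y ^ 2 * vf θ y * ff θ y| ≤
        ∫ y in Ioi (0 : ℝ), ((1 + p) * ff θ y + y ^ 2 * vf θ y * ff θ y) := by
      refine setIntegral_mono_on ik'.abs ((iff0.const_mul (1 + p)).add iv2) measurableSet_Ioi ?_
      intro y hy
      have a1 := hf0 y hy
      have a2 := hv0 y hy
      have a3 : 0 ≤ (1 + p) * ff θ y := by positivity
      have a4 : 0 ≤ y ^ 2 * vf θ y * ff θ y := by positivity
      rw [abs_le]; constructor <;> linarith
    rw [integral_add (iff0.const_mul (1 + p)) iv2, integral_const_mul, m0f] at hle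
    rw [← F1] at hb
    have hfin : |u * (u * f1 θ (u ^ 2))| ≤ 2.1 := by linarith
    rw [← mul_assoc, ← pow_two, abs_mul, abs_of_pos hu2] at hfin
    rw [le_div_iff₀ hu2, mul_comm]
    exact hfin
  · -- second bound
    have hde : 0 < de θ := by unfold de; linarith
    have hdep : de θ = θ * p := by rw [hp]; unfold de; field_simp
    have hd : ∀ y, 0 < y → HasDerivAt (fun y => y * ff θ y - y * zf θ y)
        (ff θ y - zf θ y - y ^ 2 * vf θ y * ff θ y + y ^ 2 * ff θ y + p * ff θ y) y := by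
      intro y hy
      have h1 := ((hasDerivAt_id y).mul (hfd y hy)).sub ((hasDerivAt_id y).mul (hzd y hy))
      refine h1.congr_deriv ?_
      simp only [id]
      rw [← hp]
      field_simp
      ring
    have ih : IntegrableOn (fun y => y * ff θ y - y * zf θ y) (Ioi 0) := iff1.sub iyz
    have ih' : IntegrableOn (fun y => ff θ y - zf θ y - y ^ 2 * vf θ y * ff θ y +
        y ^ 2 * ff θ y + p * ff θ y) (Ioi 0) :=
      (((iff0.sub iz).sub iv2).add iff2).add (iff0.const_mul p)
    have h0 : Tendsto (fun y => y * ff θ y - y * zf θ y) (𝓝[>] 0) (𝓝 0) := by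
      refine tend_zero (kap θ * (1 / sg θ) + 1 / sg θ) _ (fun y hy hy1 => ?_)
      have b1 := hffb y hy hy1
      have b2 := hzC y hy
      have b3 := mul_pos hy (hf0 y hy)
      have b4 := mul_pos hy (hz0 y hy)
      have b5 := mul_le_mul_of_nonneg_left b1 hy.le
      have b6 := mul_le_mul_of_nonneg_left b2 hy.le
      rw [abs_le]; constructor <;> nlinarith
    have hb := parts_bound _ _ u hu hd ih ih' h0
    -- identity
    have hid : u * (de θ * Ga θ (u ^ 2)) =
        ∫ y in Ioi (0 : ℝ), (y * ff θ y - y * zf θ y) * Real.sin (u * y) := by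
      have hs : ∀ G : ℝ → ℝ, IntegrableOn G (Ioi 0) →
          IntegrableOn (fun y => G y * Real.sin (u * y)) (Ioi 0) := by
        intro G hG
        refine Integrable.mul_bdd (c := 1) hG
          ((by fun_prop : Continuous (fun y : ℝ => Real.sin (u * y))).aestronglyMeasurable) ?_
        exact Eventually.of_forall (fun y => by rw [Real.norm_eq_abs]; exact Real.abs_sin_le_one _)
      have h1 : ∫ y in Ioi (0 : ℝ), (y * ff θ y - y * zf θ y) * Real.sin (u * y) =
          (∫ y in Ioi (0 : ℝ), y * ff θ y * Real.sin (u * y)) -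
            ∫ y in Ioi (0 : ℝ), y * zf θ y * Real.sin (u * y) := by
        rw [← integral_sub (hs _ iff1) (hs _ iyz)]
        refine integral_congr_ae (Eventually.of_forall (fun y => ?_))
        beta_reduce
        ring
      rw [h1]
      have h2 : de θ * Ga θ (u ^ 2) = 2 * f2 θ (u ^ 2) + f1 θ (u ^ 2) := by
        unfold Ga; field_simp
      rw [h2]
      linarith
    rw [← hid] at hb
    obtain ⟨i1, j1⟩ := int_l1
    obtain ⟨i2, j2⟩ := int_l2
    set Λ := Real.exp 0.806 with hΛ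
    have hΛ0 : 0 < Λ := Real.exp_pos _
    have hle : ∫ y in Ioi (0 : ℝ), |ff θ y - zf θ y - y ^ 2 * vf θ y * ff θ y +
        y ^ 2 * ff θ y + p * ff θ y| ≤
        ∫ y in Ioi (0 : ℝ), p * (Λ * (y * zf θ y) +
          (1 / sg θ) * (Ioc (0 : ℝ) 1).indicator (fun y => -Real.log y) y +
          Λ * (y ^ 3 * ff θ y) +
          (kap θ * (1 / sg θ)) * (Ioc (0 : ℝ) 1).indicator (fun y => y - y ^ 2) y + ff θ y) := by
      refine setIntegral_mono_on ih'.abs ?_ measurableSet_Ioi ?_
      · exact (((((iyz.const_mul Λ).add (i1.const_mul _)).add (iff3.const_mul Λ)).add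
          (i2.const_mul _)).add iff0).const_mul p
      intro y hy
      have hy' : (0 : ℝ) < y := hy
      have a0 := hz0 y hy
      have a1 := hf0 y hy
      have a2 := hv0 y hy
      have a3 := hzC y hy
      have hva : |vf θ y - 1| ≤ p *
          (Λ * y + (Ioc (0 : ℝ) 1).indicator (fun y => -Real.log y) y) := by
        rw [hp]
        exact v_abs (by rw [← hp]; exact hp0.le) (by rw [← hp]; linarith) hk1 hk2 hy
      set I1 := (Ioc (0 : ℝ) 1).indicator (fun y => -Real.log y) y with hI1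
      set I2 := (Ioc (0 : ℝ) 1).indicator (fun y => y - y ^ 2) y with hI2
      have hI1n : 0 ≤ I1 := by
        rw [hI1]
        refine indicator_nonneg (fun x hx => ?_) y
        have := Real.log_nonpos hx.1.le hx.2
        linarith
      have hkey : y ^ 2 * ff θ y * I1 ≤ (kap θ * (1 / sg θ)) * I2 := by
        by_cases hy1 : y < 1
        · have hmem : y ∈ Ioc (0 : ℝ) 1 := ⟨hy', hy1.le⟩
          rw [hI1, hI2, indicator_of_mem hmem, indicator_of_mem hmem]
          have c1 : -Real.log y ≤ 1 / y - 1 := by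
            have := Real.one_sub_inv_le_log_of_pos hy'
            rw [one_div]; linarith
          have c2 : y ^ 2 * -Real.log y ≤ y - y ^ 2 := by
            calc y ^ 2 * -Real.log y ≤ y ^ 2 * (1 / y - 1) :=
                  mul_le_mul_of_nonneg_left c1 (by positivity)
              _ = y - y ^ 2 := by field_simp
          have c3 : 0 ≤ y ^ 2 * -Real.log y := by
            have := Real.log_nonpos hy'.le hy1.le
            exact mul_nonneg (by positivity) (by linarith)
          calc y ^ 2 * ff θ y * -Real.log y = ff θ y * (y ^ 2 * -Real.log y) := by ring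
            _ ≤ (kap θ * (1 / sg θ)) * (y ^ 2 * -Real.log y) :=
                mul_le_mul_of_nonneg_right (hffb y hy' hy1) c3
            _ ≤ (kap θ * (1 / sg θ)) * (y - y ^ 2) :=
                mul_le_mul_of_nonneg_left c2 (by positivity)
        · by_cases hy2 : y = 1
          · rw [hI1, hI2, hy2]
            simp
          · have hmem : y ∉ Ioc (0 : ℝ) 1 := fun h => hy1 (lt_of_le_of_ne h.2 hy2)
            rw [hI1, hI2, indicator_of_notMem hmem, indicator_of_notMem hmem]
            simp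
      have hexp : ff θ y - zf θ y - y ^ 2 * vf θ y * ff θ y + y ^ 2 * ff θ y + p * ff θ y =
          zf θ y * (vf θ y - 1) - y ^ 2 * ff θ y * (vf θ y - 1) + p * ff θ y := by
        have : ff θ y = vf θ y * zf θ y := rfl
        rw [this]; ring
      rw [hexp]
      have t1 : |zf θ y * (vf θ y - 1) - y ^ 2 * ff θ y * (vf θ y - 1) + p * ff θ y| ≤
          zf θ y * |vf θ y - 1| + y ^ 2 * ff θ y * |vf θ y - 1| + p * ff θ y := by
        have e1 : |zf θ y * (vf θ y - 1)| = zf θ y * |vf θ y - 1| := by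
          rw [abs_mul, abs_of_pos a0]
        have e2 : |y ^ 2 * ff θ y * (vf θ y - 1)| = y ^ 2 * ff θ y * |vf θ y - 1| := by
          rw [abs_mul, abs_of_pos (by positivity)]
        have e3 : |p * ff θ y| = p * ff θ y := abs_of_pos (by positivity)
        calc _ ≤ |zf θ y * (vf θ y - 1) - y ^ 2 * ff θ y * (vf θ y - 1)| + |p * ff θ y| :=
              abs_add_le _ _
          _ ≤ |zf θ y * (vf θ y - 1)| + |y ^ 2 * ff θ y * (vf θ y - 1)| + |p * ff θ y| := by
              gcongr; exact abs_sub _ _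
          _ = _ := by rw [e1, e2, e3]
      refine t1.trans ?_
      have t2 : zf θ y * |vf θ y - 1| ≤ p * (Λ * (y * zf θ y) + (1 / sg θ) * I1) := by
        calc zf θ y * |vf θ y - 1| ≤ zf θ y * (p * (Λ * y + I1)) :=
              mul_le_mul_of_nonneg_left hva a0.le
          _ = p * (Λ * (y * zf θ y) + zf θ y * I1) := by ring
          _ ≤ p * (Λ * (y * zf θ y) + (1 / sg θ) * I1) := by
              have := mul_le_mul_of_nonneg_right a3 hI1n
              gcongr
      have t3 : y ^ 2 * ff θ y * |vf θ y - 1| ≤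
          p * (Λ * (y ^ 3 * ff θ y) + (kap θ * (1 / sg θ)) * I2) := by
        calc y ^ 2 * ff θ y * |vf θ y - 1| ≤ y ^ 2 * ff θ y * (p * (Λ * y + I1)) :=
              mul_le_mul_of_nonneg_left hva (by positivity)
          _ = p * (Λ * (y ^ 3 * ff θ y) + y ^ 2 * ff θ y * I1) := by ring
          _ ≤ p * (Λ * (y ^ 3 * ff θ y) + (kap θ * (1 / sg θ)) * I2) := by gcongr
      calc _ ≤ p * (Λ * (y * zf θ y) + (1 / sg θ) * I1) +
            p * (Λ * (y ^ 3 * ff θ y) + (kap θ * (1 / sg θ)) * I2) + p * ff θ y := by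
            gcongr
        _ = _ := by ring
    have hval : ∫ y in Ioi (0 : ℝ), p * (Λ * (y * zf θ y) +
          (1 / sg θ) * (Ioc (0 : ℝ) 1).indicator (fun y => -Real.log y) y +
          Λ * (y ^ 3 * ff θ y) +
          (kap θ * (1 / sg θ)) * (Ioc (0 : ℝ) 1).indicator (fun y => y - y ^ 2) y + ff θ y) =
        p * (Λ * (m3 θ / 2) + (1 / sg θ) * 1 + Λ * m3 θ + (kap θ * (1 / sg θ)) * (1 / 6) + 1) := by
      rw [integral_const_mul, integral_add, integral_add, integral_add, integral_add,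
        integral_const_mul, integral_const_mul, integral_const_mul, integral_const_mul,
        m1z, j1, m3f, j2, m0f]
      · exact iyz.const_mul Λ
      · exact i1.const_mul _
      · exact (iyz.const_mul Λ).add (i1.const_mul _)
      · exact iff3.const_mul Λ
      · exact ((iyz.const_mul Λ).add (i1.const_mul _)).add (iff3.const_mul Λ)
      · exact i2.const_mul _
      · exact (((iyz.const_mul Λ).add (i1.const_mul _)).add (iff3.const_mul Λ)).add
          (i2.const_mul _)
      · exact iff0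
    rw [hval] at hle
    have hΛb : Λ ≤ 2.2391 := by
      rw [hΛ]
      have := Real.exp_bound' (x := 0.806) (by norm_num) (by norm_num) (n := 8) (by norm_num)
      refine this.trans ?_
      norm_num [Finset.sum_range_succ, Nat.factorial]
    have hκb : kap θ ≤ 1.04 := by
      refine hk2.trans ?_
      rw [← hp]
      have h1 : Real.exp (0.806 * p) ≤ Real.exp 0.033 :=
        Real.exp_le_exp.mpr (by nlinarith)
      have := Real.exp_bound' (x := 0.033) (by norm_num) (by norm_num) (n := 3) (by norm_num)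
      refine h1.trans (this.trans ?_)
      norm_num [Finset.sum_range_succ, Nat.factorial]
    have hm30 : 0 ≤ m3 θ := by
      rw [← m3f]
      refine setIntegral_nonneg measurableSet_Ioi (fun y hy => ?_)
      have := hf0 y hy
      have hy' : (0 : ℝ) < y := hy
      positivity
    have hS : Λ * (m3 θ / 2) + (1 / sg θ) * 1 + Λ * m3 θ + (kap θ * (1 / sg θ)) * (1 / 6) + 1 ≤
        7.77 := by
      have s1 : Λ * m3 θ ≤ 2.2391 * 1.7321 := mul_le_mul hΛb hm3 hm30 (by norm_num)
      have s2 : kap θ * (1 / sg θ) ≤ 1.04 * 0.806 := mul_le_mul hκb hC1 hC0.le (by norm_num)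
      nlinarith
    have hfin : |u * (u * (de θ * Ga θ (u ^ 2)))| ≤ p * 7.77 :=
      (hb.trans hle).trans (mul_le_mul_of_nonneg_left hS hp0.le)
    have hre : u * (u * (de θ * Ga θ (u ^ 2))) = (u ^ 2 * (θ * p)) * Ga θ (u ^ 2) := by
      rw [hdep]; ring
    rw [hre, abs_mul, abs_of_pos (by positivity)] at hfin
    rw [le_div_iff₀ hu2]
    have h3 : p * (θ * (|Ga θ (u ^ 2)| * u ^ 2)) ≤ p * 7.77 := by
      calc p * (θ * (|Ga θ (u ^ 2)| * u ^ 2)) = u ^ 2 * (θ * p) * |Ga θ (u ^ 2)| := by ring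
        _ ≤ p * 7.77 := hfin
    have h4 : θ * (|Ga θ (u ^ 2)| * u ^ 2) ≤ 7.77 := le_of_mul_le_mul_left h3 hp0
    have h5 : 0 ≤ |Ga θ (u ^ 2)| * u ^ 2 := by positivity
    nlinarith

end

end Pool.Agent.Helper32.NR
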